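import Pool.Agent.Run7.h618.BR.HexD
import Pool.Agent.Run7.h618.BR.Cnt

/-!
# The number of bridges of the honeycomb lattice
-/

set_option autoImplicit false

namespace Pool.Agent.Results.MP_b440f6_pr.BridgePowerLaw

/-- Adjacency in the honeycomb lattice (brick-wall coordinates, as in the frozen statement
S19575). -/
def Nbr (p q : ℤ × ℤ) : Prop :=
  (p.2 = q.2 ∧ (p.1 - q.1 = 1 ∨ q.1 - p.1 = 1)) ∨
    (p.1 = q.1 ∧ ((q.2 = p.2 + 1 ∧ Even (p.1 + p.2)) ∨ (p.2 = q.2 + 1 ∧ Even (q.1 + q.2))))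

/-- The level of a vertex. The sets of vertices of a given level lie on parallel lines, which are
perpendicular to one third of the edges; every edge joins two consecutive levels. -/
def level (p : ℤ × ℤ) : ℤ := p.1 - p.2

/-- The bridges with `n` steps from `v`: the self-avoiding walks which are above the level of `v`
after the first step, and whose last vertex has maximal level. -/
def bridges (v : ℤ × ℤ) (n : ℕ) : Set (Fin (n + 1) → ℤ × ℤ) :=
  {ω | ω 0 = v ∧ Function.Injective ω ∧ (∀ i : Fin n, Nbr (ω i.castSucc) (ω i.succ)) ∧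
    (∀ i, i ≠ 0 → level v < level (ω i)) ∧ ∀ i, level (ω i) ≤ level (ω (Fin.last n))}

/-- The connective constant. -/
noncomputable def μ : ℝ := Real.sqrt (2 + Real.sqrt 2)

theorem nbr_iff (p q : ℤ × ℤ) : Nbr p q ↔ Pool.Agent.H976R3.HPL.hexA.Adj p q := by
  obtain ⟨a, b⟩ := p
  obtain ⟨x, y⟩ := q
  show Nbr (a, b) (x, y) ↔ Pool.Agent.H976R3.HPL.HAdj (a, b) (x, y)
  unfold Nbr Pool.Agent.H976R3.HPL.HAdj
  simp only [Prod.mk_sub_mk, Prod.mk.injEq]
  constructor
  · rintro (⟨h1, h2 | h2⟩ | ⟨h1, ⟨h2, h3⟩ | ⟨h2, h3⟩⟩)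
    · right; left; omega
    · left; omega
    · right; right; left; exact ⟨by omega, h3⟩
    · right; right; right; exact ⟨by omega, h3⟩
  · rintro (h | h | ⟨h, h'⟩ | ⟨h, h'⟩)
    · left; omega
    · left; omega
    · right; exact ⟨by omega, Or.inl ⟨by omega, h'⟩⟩
    · right; exact ⟨by omega, Or.inr ⟨by omega, h'⟩⟩

theorem bridges_card (v : ℤ × ℤ) (n : ℕ) :
    (bridges v n).ncard = Pool.Agent.H976R3.HPL.b Pool.Agent.H976R3.HPL.hexA v n := by
  rw [← Run7.h618.BR.ncard_BF]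
  congr 1
  ext ω
  unfold bridges Run7.h618.BR.BF level
  simp only [Set.mem_ofPred_eq, nbr_iff, Run7.h618.BR.HX.hA]

/-- **Theorem.** On the honeycomb lattice, with `μ = √(2+√2)`, there is a constant `C` such that
every vertex `v` has at most `C n^(-1/18) μ^n` bridges with `n` steps, for every `n ≥ 1`. -/
theorem result : ∃ C : ℝ, ∀ (v : ℤ × ℤ) (n : ℕ), 1 ≤ n →
    ((bridges v n).ncard : ℝ) ≤ C * (n : ℝ) ^ (-(1 / 18) : ℝ) * μ ^ n := by
  obtain ⟨C, hC⟩ := Run7.h618.BR.HX.final_both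
  refine ⟨C, fun v n hn => ?_⟩
  rw [bridges_card]
  exact hC.1 v n hn

end Pool.Agent.Results.MP_b440f6_pr.BridgePowerLaw
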