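import Pool.Agent.Run7.h738.EX.Hex

/-!
# Extremal sites of the self-avoiding walk on the honeycomb lattice

Uniform `n`-step self-avoiding walks on the honeycomb lattice (brick-wall coordinates, same
description as in the frozen statement), on the whole lattice or in a domain which is invariant
under the horizontal translation to one side.  The number of the sites of the walk in its last
`y + 1` columns has an exponential tail, uniformly in the number of steps, in the starting point and
in the domain.
-/

set_option autoImplicit false

namespace Pool.Agent.Results.MP_b440f6_pr.ExtremalSites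

/-- Adjacency in the honeycomb lattice (brick-wall coordinates, as in the frozen statement
S19575). -/
def Nbr (p q : ℤ × ℤ) : Prop :=
  (p.2 = q.2 ∧ (p.1 - q.1 = 1 ∨ q.1 - p.1 = 1)) ∨
    (p.1 = q.1 ∧ ((q.2 = p.2 + 1 ∧ Even (p.1 + p.2)) ∨ (p.2 = q.2 + 1 ∧ Even (q.1 + q.2))))

/-- The self-avoiding walks with `n` steps from `o` in the domain `D`, as the lists of their `n + 1`
sites. -/
def walks (D : Set (ℤ × ℤ)) (o : ℤ × ℤ) (n : ℕ) : Set (List (ℤ × ℤ)) :=
  {l | l.length = n + 1 ∧ l.head? = some o ∧ l.IsChain Nbr ∧ l.Nodup ∧ ∀ v ∈ l, v ∈ D}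

/-- The probability of an event under the uniform probability measure on `walks D o n` (zero if
there are no such walks). -/
noncomputable def prob (D : Set (ℤ × ℤ)) (o : ℤ × ℤ) (n : ℕ) (E : List (ℤ × ℤ) → Prop) : ℝ :=
  (({l | l ∈ walks D o n ∧ E l} : Set (List (ℤ × ℤ))).ncard : ℝ) / (walks D o n).ncard

/-- The sites of the walk in its last `y + 1` columns (`s = 1`: the columns with the largest first
coordinates; `s = -1`: with the smallest ones). In the honeycomb lattice with unit edges, neighbouring
columns have distance `√3 / 2`: these are the sites at distance at most `(√3 / 2) y` from the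
supporting line of the walk orthogonal to the direction of the rows. -/
def extremal (s : ℤ) (y : ℕ) (l : List (ℤ × ℤ)) : Set (ℤ × ℤ) :=
  {v | v ∈ l ∧ ∀ w ∈ l, s * w.1 ≤ s * v.1 + y}

/-- **Extremal sites.**  For `s = ± 1`, every set `D` of vertices such that `(x + s, y) ∈ D` for all
`(x, y) ∈ D` (the whole lattice, half-planes, horizontal strips, ...), every starting vertex, every
number `n` of steps and all `y ∈ ℕ`, `x ≥ 0`: the uniform `n`-step self-avoiding walk in `D` on the
honeycomb lattice has more than `1310720 ^ (1 + y) (1 + x)` sites in its last `y + 1` columns in the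
direction `s` with probability at most `exp (-x)`. -/
theorem result (s : ℤ) (hs : s = 1 ∨ s = -1) (D : Set (ℤ × ℤ))
    (hD : ∀ v ∈ D, (v.1 + s, v.2) ∈ D) (o : ℤ × ℤ) (n y : ℕ) (x : ℝ) (hx : 0 ≤ x) :
    prob D o n (fun l => (1310720 : ℝ) ^ (1 + y) * (1 + x) < (extremal s y l).ncard) ≤
      Real.exp (-x) := by
  have h := Run7.h738.EX.tail_set (Run7.h738.EX.hex s hs) (D := D) o hD n y hx
  rw [Run7.h738.EX.KK_hex] at h
  unfold prob
  exact div_le_of_le_mul₀ (Nat.cast_nonneg _) (Real.exp_pos _).le h

end Pool.Agent.Results.MP_b440f6_pr.ExtremalSites
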