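import Pool.Agent.Run7.h240.HX.Fin

/-!
# Honeycomb lattice: the probability that the self-avoiding walk stays in a half-plane, or has a
cut edge at a given time, decays like a power
-/

set_option autoImplicit false

namespace Pool.Agent.Results.MP_b440f6_pr.HalfPlanePowerLaw

open scoped Classical ComplexConjugate

/-- neighbours on the honeycomb lattice (brick-wall coordinates) -/
def Adj (p q : ℤ × ℤ) : Prop :=
  q - p = (1, 0) ∨ q - p = (-1, 0) ∨ (q - p = (0, 1) ∧ Even (p.1 + p.2)) ∨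
    (q - p = (0, -1) ∧ Even (q.1 + q.2))

/-- the place of the vertex `p` in the plane (the edges have length one) -/
noncomputable def pt (p : ℤ × ℤ) : ℂ :=
  ⟨(3 * p.2 - ((p.1 + p.2) % 2 : ℤ)) / 2, √3 / 2 * p.1⟩

/-- the `n`-step self-avoiding walks from the origin -/
def walks (n : ℕ) : Set (Fin (n + 1) → ℤ × ℤ) :=
  {γ | γ 0 = 0 ∧ Function.Injective γ ∧ ∀ i : Fin n, Adj (γ i.castSucc) (γ i.succ)}

/-- the edge from `γ t` to `γ (t + 1)` is a cut edge: its perpendicular bisector separates the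
past from the future -/
def CutEdge {n : ℕ} (t : Fin n) (γ : Fin (n + 1) → ℤ × ℤ) : Prop :=
  (∀ i, i ≤ t.castSucc → ‖pt (γ i) - pt (γ t.castSucc)‖ < ‖pt (γ i) - pt (γ t.succ)‖) ∧
    ∀ i, t.castSucc < i → ‖pt (γ i) - pt (γ t.succ)‖ < ‖pt (γ i) - pt (γ t.castSucc)‖

/-! ### transfer -/

open Run7.h240.HX hiding pt
open Pool.Agent.W840.CT (ex ex_val ex_ext)

theorem mem_walks {n : ℕ} {γ : Fin (n + 1) → ℤ × ℤ} : γ ∈ walks n ↔ Hx n γ := Iff.rfl

theorem filter_card {n : ℕ} (P : (Fin (n + 1) → ℤ × ℤ) → Prop) [DecidablePred P] :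
    ({γ ∈ walks n | P γ}.ncard : ℝ) = ((WX n).filter P).card := by
  rw [← Set.ncard_coe_finset]
  congr 2
  ext γ
  simp only [Set.mem_ofPred_eq, Finset.coe_filter, mem_WX, mem_walks]

theorem walks_card (n : ℕ) : ((walks n).ncard : ℝ) = cc n := by
  unfold cc
  rw [← Set.ncard_coe_finset]
  congr 2
  ext γ
  rw [Finset.mem_coe, mem_WX, mem_walks]

theorem cut_iff {n : ℕ} (t : Fin n) (γ : Fin (n + 1) → ℤ × ℤ) (h : CutEdge t γ) : Ce n t.1 γ := by
  have e1 : γ t.castSucc = ex γ t.1 := (ex_val γ t.castSucc).symm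
  have e2 : γ t.succ = ex γ (t.1 + 1) := (ex_val γ t.succ).symm
  obtain ⟨h1, h2⟩ := h
  rw [e1, e2] at h1 h2
  have ht := t.2
  refine ⟨fun i hi => ?_, fun i hi hin => ?_⟩
  · have e3 : γ ⟨i, by omega⟩ = ex γ i := (ex_val γ ⟨i, by omega⟩).symm
    have h3 := h1 ⟨i, by omega⟩ hi
    rw [e3] at h3
    exact h3
  · have e3 : γ ⟨i, by omega⟩ = ex γ i := (ex_val γ ⟨i, by omega⟩).symm
    have h3 := h2 ⟨i, by omega⟩ hi
    rw [e3] at h3
    exact h3

/-- There is a constant `C` such that for every `n ≥ 1` the uniform `n`-step self-avoiding walk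
from the origin on the honeycomb lattice (unit edges)
(1) stays in the closed half-plane `{z : Re (z · conj v) ≥ 0}` with probability at most
`C n^{-7/250}`, and in `{z : Re (z · conj v) ≤ 0}` with probability at most `C n^{-7/250}`, for each
of the three neighbours `v` of the origin;
(2) has its `(t + 1)`-st edge as a cut edge with probability at most `C m^{-7/125}`, for all `t < n`
with `m = min (t, n - 1 - t) ≥ 1`. -/
theorem result : ∃ C : ℝ, ∀ n : ℕ, 1 ≤ n →
    (∀ v, Adj 0 v →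
      ({γ ∈ walks n | ∀ i, 0 ≤ (pt (γ i) * conj (pt v)).re}.ncard : ℝ) ≤
          C * (n : ℝ) ^ (-(7 / 250) : ℝ) * ((walks n).ncard : ℝ) ∧
      ({γ ∈ walks n | ∀ i, (pt (γ i) * conj (pt v)).re ≤ 0}.ncard : ℝ) ≤
          C * (n : ℝ) ^ (-(7 / 250) : ℝ) * ((walks n).ncard : ℝ)) ∧
    ∀ (t : Fin n) (m : ℕ), m = min t.1 (n - 1 - t.1) → 1 ≤ m →
      ({γ ∈ walks n | CutEdge t γ}.ncard : ℝ) ≤
        C * (m : ℝ) ^ (-(7 / 125) : ℝ) * ((walks n).ncard : ℝ) := by
  obtain ⟨K1, hK1, h1⟩ := half_all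
  obtain ⟨K2, hK2, h2⟩ := cut_all
  refine ⟨max K1 K2, fun n hn => ⟨fun v hv => ?_, fun t m hm hm1 => ?_⟩⟩
  · obtain ⟨g1, g2⟩ := h1 n hn v hv
    have hle : K1 * (n : ℝ) ^ (-(7 / 250) : ℝ) * cc n ≤
        max K1 K2 * (n : ℝ) ^ (-(7 / 250) : ℝ) * cc n :=
      mul_le_mul_of_nonneg_right (mul_le_mul_of_nonneg_right (le_max_left _ _) (by positivity))
        (cc_pos n).le
    rw [walks_card]
    exact ⟨(filter_card (Hg n v)).le.trans (g2.trans hle),
      (filter_card (Hf n v)).le.trans (g1.trans hle)⟩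
  · have g := h2 n t.1 m t.2 hm hm1
    have hle : K2 * (m : ℝ) ^ (-(7 / 125) : ℝ) * cc n ≤
        max K1 K2 * (m : ℝ) ^ (-(7 / 125) : ℝ) * cc n :=
      mul_le_mul_of_nonneg_right (mul_le_mul_of_nonneg_right (le_max_right _ _) (by positivity))
        (cc_pos n).le
    rw [walks_card, filter_card]
    refine le_trans ?_ (g.trans hle)
    refine Nat.cast_le.2 (Finset.card_le_card ?_)
    intro γ hγ
    rw [Finset.mem_filter] at hγ ⊢
    exact ⟨hγ.1, cut_iff t γ hγ.2⟩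

end Pool.Agent.Results.MP_b440f6_pr.HalfPlanePowerLaw
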