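import Pool.Agent.Run7.h287.ST.Main

/-!
Self-avoiding walks on the honeycomb lattice (brick-wall coordinates, same description as in the
frozen statement): walks of small width, and the growth constants of strips.
-/

set_option autoImplicit false

namespace Pool.Agent.Results.MP_b440f6_pr.StripGrowth

open Filter Topology

/-- Adjacency in the honeycomb lattice (brick-wall model), as in the frozen statement. -/
def Nbr (p q : ℤ × ℤ) : Prop :=
  (p.2 = q.2 ∧ (p.1 - q.1 = 1 ∨ q.1 - p.1 = 1)) ∨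
    (p.1 = q.1 ∧ ((q.2 = p.2 + 1 ∧ Even (p.1 + p.2)) ∨ (p.2 = q.2 + 1 ∧ Even (q.1 + q.2))))

/-- The set of `n`-step self-avoiding walks from the origin. -/
def walks (n : ℕ) : Set (Fin (n + 1) → ℤ × ℤ) :=
  {ω | ω 0 = (0, 0) ∧ Function.Injective ω ∧ ∀ i : Fin n, Nbr (ω i.castSucc) (ω i.succ)}

/-- The vertex of the regular honeycomb lattice with edge length `1` in the plane, the origin at `0`,
which has the brick-wall coordinates `p`. -/
noncomputable def pos (p : ℤ × ℤ) : ℂ :=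
  ⟨√3 / 2 * p.1, (3 * p.2 - ((p.1 + p.2) % 2 : ℤ)) / 2⟩

/-- The probability that the uniform `n`-step self-avoiding walk has property `A`. -/
noncomputable def prob (n : ℕ) (A : (Fin (n + 1) → ℤ × ℤ) → Prop) : ℝ :=
  ({ω ∈ walks n | A ω}.ncard : ℝ) / ((walks n).ncard : ℝ)

/-- The orthogonal projection of `z` to the line through `0` in the direction `0`, `60` or `120`
degrees: these are the three directions perpendicular to edges of the lattice. -/
noncomputable def proj (m : Fin 3) (z : ℂ) : ℝ :=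
  ![z.re, z.re / 2 + √3 / 2 * z.im, -(z.re / 2) + √3 / 2 * z.im] m

/-- The number of the `n`-step self-avoiding walks from the origin which stay in a strip
`{(x, y) : t ≤ x ≤ t + w}` for some `t` (euclidean width `√3 w / 2`). -/
noncomputable def N (w n : ℕ) : ℕ :=
  {ω ∈ walks n | ∃ t : ℤ, ∀ i, t ≤ (ω i).1 ∧ (ω i).1 ≤ t + w}.ncard

theorem pos_eq (p : ℤ × ℤ) : pos p = H978R2.Hex.pos p := by
  unfold pos H978R2.Hex.pos H978R2.Hex.ht
  push_cast
  rfl

theorem nbr_iff (p q : ℤ × ℤ) : Nbr p q ↔ H978R2.Hex.Adj p q := by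
  obtain ⟨a, b⟩ := p
  obtain ⟨x, y⟩ := q
  unfold Nbr H978R2.Hex.Adj
  simp only [Prod.mk_sub_mk, Prod.mk.injEq]
  constructor
  · rintro (⟨h1, h2 | h2⟩ | ⟨h1, ⟨h2, h3⟩ | ⟨h2, h3⟩⟩)
    · right; left; omega
    · left; omega
    · right; right; left; exact ⟨by omega, h3⟩
    · right; right; right; exact ⟨by omega, h3⟩
  · rintro (h | h | ⟨h, h'⟩ | ⟨h, h'⟩)
    · left; omega
    · left; omega
    · right; exact ⟨by omega, Or.inl ⟨by omega, h'⟩⟩
    · right; exact ⟨by omega, Or.inr ⟨by omega, h'⟩⟩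

theorem walks_eq (n : ℕ) : walks n = H978R2.Hex.saws n := by
  ext f
  unfold walks H978R2.Hex.saws
  simp only [Set.mem_ofPred_eq]
  constructor
  · rintro ⟨h1, h2, h3⟩
    exact ⟨h1, h2, fun i => (nbr_iff _ _).1 (h3 i)⟩
  · rintro ⟨h1, h2, h3⟩
    exact ⟨h1, h2, fun i => (nbr_iff _ _).2 (h3 i)⟩

theorem N_eq (w n : ℕ) : N w n = Run7.h287.ST.NN w n := by
  unfold N Run7.h287.ST.NN
  rw [walks_eq]
  congr 1
  ext ω
  simp only [Set.mem_ofPred_eq, and_congr_right_iff]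
  intro _
  constructor
  · rintro ⟨t, ht⟩ i j
    have h1 := ht i
    have h2 := ht j
    omega
  · intro h
    obtain ⟨i0, hi0⟩ := Finite.exists_min (fun i => (ω i).1)
    exact ⟨(ω i0).1, fun i => ⟨hi0 i, by have := h i i0; omega⟩⟩

/-- **Theorem.** Honeycomb lattice with unit edges, `μ = √(2+√2)`; there are `a, b, C > 0` and `w₀`
such that:
(1) for each of the three directions perpendicular to edges, all `n ≥ 2` and all `y ≥ 1`, the width
of the uniform `n`-step self-avoiding walk in this direction is at most `y` with probability at most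
`exp (C (log n)^2 - a n / y^2)`;
(2) let `N w n` be the number of the `n`-step walks which stay in a strip of `w + 1` columns; for
every `w ≥ 1` the growth constant `ν w = lim (N w n)^(1/n)` exists and
`μ exp (- w^(-(1 + b / log log w))) ≤ ν w ≤ μ exp (- a / w^2)`, the first inequality for `w ≥ w₀`;
(3) `N w n ≤ μ^n exp (C (log n)^2 - a n / w^2)` for all `w ≥ 1`, `n ≥ 2`, and
`N w n ≥ μ^n exp (- 2 w^2 - n w^(-(1 + b / log log w)))` for all `w ≥ w₀` and all `n`. -/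
theorem result : ∃ a b C : ℝ, 0 < a ∧ 0 < b ∧ 0 < C ∧
    (∀ (m : Fin 3) (n : ℕ) (y : ℝ), 2 ≤ n → 1 ≤ y →
      prob n (fun ω => ∀ i j, |proj m (pos (ω i) - pos (ω j))| ≤ y) ≤
        Real.exp (C * Real.log n ^ 2 - a * n / y ^ 2)) ∧
    ∃ (w₀ : ℕ) (ν : ℕ → ℝ),
      (∀ w : ℕ, 1 ≤ w → Tendsto (fun n : ℕ => (N w n : ℝ) ^ (1 / (n : ℝ))) atTop (𝓝 (ν w)) ∧
        ν w ≤ √(2 + √2) * Real.exp (-(a / w ^ 2))) ∧
      (∀ w : ℕ, w₀ ≤ w →
        √(2 + √2) * Real.exp (-((w : ℝ) ^ (-(1 + b / Real.log (Real.log w))))) ≤ ν w) ∧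
      (∀ w n : ℕ, 1 ≤ w → 2 ≤ n →
        (N w n : ℝ) ≤ √(2 + √2) ^ n * Real.exp (C * Real.log n ^ 2 - a * n / w ^ 2)) ∧
      ∀ w n : ℕ, w₀ ≤ w →
        √(2 + √2) ^ n * Real.exp (-(2 * (w : ℝ) ^ 2) -
          n * (w : ℝ) ^ (-(1 + b / Real.log (Real.log w)))) ≤ N w n := by
  obtain ⟨a1, C1, ha1, hC1, h1⟩ := Run7.h287.ST.width
  obtain ⟨a2, b, C2, ha2, hb, hC2, h2, w0, ν, h3, h4, h5⟩ := Run7.h287.ST.strips
  have hmin1 : min a1 a2 ≤ a1 := min_le_left _ _
  have hmin2 : min a1 a2 ≤ a2 := min_le_right _ _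
  have hmax1 : C1 ≤ max C1 C2 := le_max_left _ _
  have hmax2 : C2 ≤ max C1 C2 := le_max_right _ _
  have hmu : H978R2.Hex.mu0 = √(2 + √2) := rfl
  refine ⟨min a1 a2, b, max C1 C2, lt_min ha1 ha2, hb, lt_max_of_lt_left hC1, ?_, w0, ν, ?_, ?_,
    ?_, ?_⟩
  · intro m n y hn hy
    have h := h1 m n y hn hy
    unfold Pool.Agent.Y981.QB.prob at h
    unfold prob
    rw [walks_eq]
    have e : {ω ∈ H978R2.Hex.saws n | ∀ i j, |proj m (pos (ω i) - pos (ω j))| ≤ y} =
        {ω ∈ H978R2.Hex.saws n | ∀ i j,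
          |Run7.h287.ST.lat m (H978R2.Hex.pos (ω i) - H978R2.Hex.pos (ω j))| ≤ y} := by
      ext ω
      simp only [Set.mem_ofPred_eq, pos_eq]
      rfl
    rw [e]
    refine h.trans (Real.exp_le_exp.2 ?_)
    have hy0 : (0 : ℝ) < y ^ 2 := by positivity
    have g1 : min a1 a2 * n / y ^ 2 ≤ a1 * n / y ^ 2 :=
      div_le_div_of_nonneg_right (mul_le_mul_of_nonneg_right hmin1 (Nat.cast_nonneg _)) hy0.le
    have g2 : C1 * Real.log n ^ 2 ≤ max C1 C2 * Real.log n ^ 2 :=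
      mul_le_mul_of_nonneg_right hmax1 (sq_nonneg _)
    linarith
  · intro w hw
    obtain ⟨g1, g2⟩ := h4 w hw
    simp only [N_eq]
    refine ⟨g1, ?_⟩
    rw [← hmu]
    refine g2.trans (mul_le_mul_of_nonneg_left (Real.exp_le_exp.2 ?_)
      Pool.Agent.Y981.QB.mu0_pos.le)
    have g3 : min a1 a2 / (w : ℝ) ^ 2 ≤ a2 / w ^ 2 :=
      div_le_div_of_nonneg_right hmin2 (by positivity)
    linarith
  · intro w hw
    rw [← hmu]
    exact h5 w hw
  · intro w n hw hn
    rw [N_eq, ← hmu]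
    refine (h2 w n hw hn).trans (mul_le_mul_of_nonneg_left (Real.exp_le_exp.2 ?_)
      (pow_nonneg Pool.Agent.Y981.QB.mu0_pos.le n))
    have g1 : min a1 a2 * n / (w : ℝ) ^ 2 ≤ a2 * n / w ^ 2 :=
      div_le_div_of_nonneg_right (mul_le_mul_of_nonneg_right hmin2 (Nat.cast_nonneg _))
        (by positivity)
    have g2 : C2 * Real.log n ^ 2 ≤ max C1 C2 * Real.log n ^ 2 :=
      mul_le_mul_of_nonneg_right hmax2 (sq_nonneg _)
    linarith
  · intro w n hw
    rw [N_eq, ← hmu]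
    exact h3 w n hw

end Pool.Agent.Results.MP_b440f6_pr.StripGrowth
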